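import Pool.Agent.H459R3.EU.Iso

/-!
# A continuation criterion for the Euler equations relative to comparison fields

Kato's criterion says that the `H³` norm of a smooth solution `u` of the Euler equations on `[0, T)`
stays bounded if `‖∇u‖_∞` is integrable over `[0, T)`. Here only the part of `u` which is symmetric
under an isometry of the torus has to be controlled; the isometry may depend on time in an arbitrary
way. For instance, for arbitrary points `a(t)` it suffices to control `s(x) = u(x) - u(a(t) - x)`,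
twice the part of `u` which is odd about the point `a(t) / 2`:

* `|∂ⱼsᵢ| ≤ β(t)`, and the third derivatives of `s` are in `L²` small against those of `u`:
  `‖∇u‖_∞ ‖∂³s‖₂ ≤ β(t) ‖∂³u‖₂`, with integrable `β`.

More generally, the same holds for `s = u - v` with any smooth divergence-free comparison field `v`
(depending on time), as soon as the rate at which the nonlinear term increases the norm of the third
derivatives is for `v` at most `lam < 1` times the rate for `u`, up to `γ(t)` times the square of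
the norm, with integrable `γ`. The field `v = 0` gives Kato's criterion, `v = -g_* u` (`lam = -1`,
`γ = 0`) the criterion for the isometry `g`. Fields `v` whose set of frequencies contains no three
vectors with sum zero which are not collinear have rate `0`, and so have the Beltrami fields and all
eigenfields of the Laplacian.

The bound does not depend on the viscosity `ν ≥ 0`; `ν = 0` is the case of the Euler equations.

Proof: `P(a, b, c) = ∑ ∫ ∂³((a·∇)b) ∂³c` is `Tr(a, b, c) + R(a, b, c)` with the transport part `Tr`,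
antisymmetric in `b, c`, and `|R(a, b, c)| ≤ C (‖∇a‖_∞ ‖∂³b‖₂ + ‖∇b‖_∞ ‖∂³a‖₂) ‖∂³c‖₂`; with
`s = u - v`, `P(u, u, u) - P(v, v, v) = P(s, u, u) + P(v, s, u) + P(v, v, s)` and
`Tr(s, u, u) = 0`, `Tr(v, s, u) + Tr(v, v, s) = Tr(v, s, s) = 0`.
-/

set_option autoImplicit false

open MeasureTheory Set

namespace Pool.Agent.Results.MP_b0497c_an.ComparisonFields

open H459R3.NS H459R3.EU

/-- The general criterion. -/
theorem general (K lam : ℝ) (hK : 0 ≤ K) (hlam : lam < 1) :
    ∃ C : ℝ, ∀ (ν T : ℝ) (u : ℝ → V → V) (p : ℝ → V → ℝ) (β γ : ℝ → ℝ), 0 ≤ ν →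
      IsSol ν T u p → (∀ t ∈ Ioo 0 T, 0 ≤ γ t) →
      IntegrableOn β (Ioo 0 T) → IntegrableOn γ (Ioo 0 T) →
      (∀ t ∈ Ioo 0 T, ∃ v, Cmp K lam (β t) (γ t) (u t) v) →
      ∀ t ∈ Ico 0 T, dsq (u t) ≤ dsq (u 0) * Real.exp (C * ∫ s in Ioo 0 T, (β s + γ s)) := by
  refine ⟨2 / (1 - lam) * (3888 * (3 + 3 * K + K ^ 2)),
    fun ν T u p β γ hν h hγ0 hβi hγi hc t ht => ?_⟩
  refine (main hK hlam hν h hγ0 hβi hγi hc t ht).trans ?_
  refine mul_le_mul_of_nonneg_left (Real.exp_le_exp.2 ?_) (dsq_nonneg _)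
  have hl : 0 < 1 - lam := by linarith
  rw [mul_assoc]
  refine mul_le_mul_of_nonneg_left ?_ (by positivity)
  rw [← integral_const_mul]
  refine setIntegral_mono_on ((hβi.const_mul _).add hγi) ((hβi.add hγi).const_mul _)
    measurableSet_Ioo fun s hs => ?_
  have h1 := hγ0 s hs
  have h2 : γ s ≤ 3888 * (3 + 3 * K + K ^ 2) * γ s := by
    have : (1 : ℝ) ≤ 3888 * (3 + 3 * K + K ^ 2) := by nlinarith [sq_nonneg K]
    nlinarith
  linarith

/-- (1) There is an absolute constant `C` such that for every smooth periodic solution `(u, p)` on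
`[0, T)` of the Euler equations (`ν = 0`) or of the Navier-Stokes equations (`ν > 0`) and every
integrable function `β`: if at every time `t` there is an isometry `g` of the torus such that the
field `s = u(t) + g_* u(t)` satisfies `|∂ⱼsᵢ| ≤ β(t)` and `Z² ∑ ∫ |∂³s|² ≤ β(t)² ∑ ∫ |∂³u(t)|²`
for a bound `Z` of all `|∂ⱼuᵢ(t)|`, then the norm of the third derivatives of `u` is bounded on
`[0, T)`.
(2) The same for general comparison fields: for all `K ≥ 0` and `lam < 1` there is a constant `C`
such that for all integrable functions `β` and `γ ≥ 0`: if at every time `t` there is a comparison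
field for `u(t)` with the constants `K, lam, β(t), γ(t)`, then the norm of the third derivatives of
`u` is bounded on `[0, T)`. -/
theorem result :
    (∃ C : ℝ, ∀ (ν T : ℝ) (u : ℝ → V → V) (p : ℝ → V → ℝ) (β : ℝ → ℝ), 0 ≤ ν →
      IsSol ν T u p → IntegrableOn β (Ioo 0 T) →
      (∀ t ∈ Ioo 0 T, ∃ (g : Iso) (Z : ℝ), (∀ x i j, |pd j (fun y => u t y i) x| ≤ Z) ∧
        (∀ x i j, |pd j (fun y => u t y i + g.push (u t) y i) x| ≤ β t) ∧
        Z ^ 2 * dsq (fun y => u t y + g.push (u t) y) ≤ β t ^ 2 * dsq (u t)) →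
      ∀ t ∈ Ico 0 T, dsq (u t) ≤ dsq (u 0) * Real.exp (C * ∫ s in Ioo 0 T, β s)) ∧
    ∀ K lam : ℝ, 0 ≤ K → lam < 1 → ∃ C : ℝ, ∀ (ν T : ℝ) (u : ℝ → V → V) (p : ℝ → V → ℝ)
      (β γ : ℝ → ℝ), 0 ≤ ν → IsSol ν T u p → (∀ t ∈ Ioo 0 T, 0 ≤ γ t) →
      IntegrableOn β (Ioo 0 T) → IntegrableOn γ (Ioo 0 T) →
      (∀ t ∈ Ioo 0 T, ∃ v, Cmp K lam (β t) (γ t) (u t) v) →
      ∀ t ∈ Ico 0 T, dsq (u t) ≤ dsq (u 0) * Real.exp (C * ∫ s in Ioo 0 T, (β s + γ s)) := by
  refine ⟨?_, fun K lam hK hlam => general K lam hK hlam⟩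
  obtain ⟨C, hC⟩ := general 2 (-1) (by norm_num) (by norm_num)
  refine ⟨C, fun ν T u p β hν h hβi hc t ht => ?_⟩
  have key := hC ν T u p β (fun _ => 0) hν h (fun _ _ => le_rfl) hβi integrableOn_zero
    (fun t ht => ?_) t ht
  · simpa using key
  · obtain ⟨g, Z, hZ, hβ, hr⟩ := hc t ht
    have hI : t ∈ Ico 0 T := ⟨ht.1.le, ht.2⟩
    have hs : SPV (u t) := ⟨contDiff_pi.2 fun i => (h.sp hI i).smooth, h.per_u t hI⟩
    exact ⟨_, cmp_push g hs (h.divfree t hI) hZ hβ hr⟩

end Pool.Agent.Results.MP_b0497c_an.ComparisonFields
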