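import Mathlib
import Pool.Agent.H280R3.E6.TorS

open Set MeasureTheory
open scoped RealInnerProductSpace

namespace Pool.Agent.Results.MP_b0497c_an.GalerkinBlowup

open Pool.Agent.H280R3.W Pool.Agent.H280R3.E6

/-- Finite-time blow-up at a single point, after an arbitrarily short time and from an `L²`-dense
set of data, for infinite-dimensional Galerkin projections of the Euler equations on the torus
`𝕋³ = ℝ³ / (2πℤ)³`, with the exact quadratic term. -/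
theorem result (w : V → V) (hw : Bg w) (p : V) (hpΩ : p ∈ ocell) (hp : p ∉ tsupport w)
    (ε : ℝ) (hε : 0 < ε) :
    ∃ Ψ : ℕ → V → V, TorAdm Ψ ∧ Near Ψ w p ε ∧
      (∀ v ∈ Submodule.span ℝ (range Ψ), ∀ η > 0,
        ∃ u₀ ∈ Submodule.span ℝ (range Ψ), dist2 u₀ v < η ∧
          (∫ x in cell, ⟪v x, Ψ 0 x⟫ ≠ 0 → ∀ x ∈ cell, η ≤ ‖x - p‖ → u₀ x = v x) ∧
          ∃ (Ts : ℝ) (u : ℝ → V → V), 0 < Ts ∧ Ts < η ∧ Sing Ψ u₀ p Ts u) ∧
      ∀ T > 0, ∃ v₀ ∈ Submodule.span ℝ (range Ψ), ∃ v : ℝ → V → V, Sing Ψ v₀ p T v :=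
  tor_short w hw p hpΩ hp ε hε

end Pool.Agent.Results.MP_b0497c_an.GalerkinBlowup
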